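import Mathlib

set_option autoImplicit false

namespace Pool.Agent.Results.MP_874a88_al.NotRelativelyPerfect

noncomputable section

/-- Flatness of a left module over an arbitrary ring (equational criterion): every relation
`∑ a_i m_i = 0` is a consequence of relations in the ring. -/
def IsFlat (S : Type) [Ring S] (M : Type) [AddCommGroup M] [Module S M] : Prop :=
  ∀ (n : ℕ) (a : Fin n → S) (x : Fin n → M), ∑ i, a i • x i = 0 →
    ∃ (k : ℕ) (b : Fin n → Fin k → S) (y : Fin k → M),
      (∀ i, x i = ∑ j, b i j • y j) ∧ ∀ j, ∑ i, a i * b i j = 0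

/-- `Ext^1_S(F, C) = 0`: every short exact sequence `0 → C → X → F → 0` splits. -/
def ExtZero (S : Type) [Ring S] (F : Type) [AddCommGroup F] [Module S F] (C : Type)
    [AddCommGroup C] [Module S C] : Prop :=
  ∀ (X : Type) [AddCommGroup X] [Module S X] (i : C →ₗ[S] X) (p : X →ₗ[S] F),
    Function.Injective i → Function.Surjective p → Function.Exact i p →
      ∃ r : X →ₗ[S] C, ∀ c, r (i c) = c

/-- `C` is a cotorsion left `S`-module: `Ext^1_S(F, C) = 0` for every flat left module `F`. -/
def Cotorsion (S : Type) [Ring S] (C : Type) [AddCommGroup C] [Module S C] : Prop :=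
  ∀ (F : Type) [AddCommGroup F] [Module S F], IsFlat S F → ExtZero S F C

/-- `A` is finitely generated as a right `R`-module through `f`. -/
def FinitelyGeneratedRight {R A : Type} [Ring R] [Ring A] (f : R →+* A) : Prop :=
  ∃ s : Finset A, ∀ a : A, ∃ c : A → R, a = ∑ b ∈ s, b * f (c b)

/-- `f : R → A` is relatively left perfect: every left `A`-module whose underlying left
`R`-module is cotorsion is cotorsion. -/
def RelativelyLeftPerfect {R A : Type} [Ring R] [Ring A] (f : R →+* A) : Prop :=
  ∀ (C : Type) [AddCommGroup C] [Module A C],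
    (letI := Module.compHom C f; Cotorsion R C) → Cotorsion A C

/-! ### Extensions over a free algebra -/

section free

variable {K X : Type} [Field K]

/-- The extension of `G` by `E` over the free algebra with a given cocycle. -/
theorem twist (E G : Type) [AddCommGroup E] [Module (FreeAlgebra K X) E]
    [AddCommGroup G] [Module (FreeAlgebra K X) G] [Module K E] [Module K G]
    [IsScalarTower K (FreeAlgebra K X) E] [IsScalarTower K (FreeAlgebra K X) G]
    (δ : X → G →ₗ[K] E) :
    ∃ (V : Type) (_ : AddCommGroup V) (_ : Module (FreeAlgebra K X) V) (q : V ≃+ E × G),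
      (∀ (x : X) (v : V), q (FreeAlgebra.ι K x • v) =
        (FreeAlgebra.ι K x • (q v).1 + δ x (q v).2, FreeAlgebra.ι K x • (q v).2)) ∧
      (∀ (c : K) (v : V), q (algebraMap K (FreeAlgebra K X) c • v) =
        (algebraMap K (FreeAlgebra K X) c • (q v).1,
          algebraMap K (FreeAlgebra K X) c • (q v).2)) := by
  let ψ : FreeAlgebra K X →ₐ[K] Module.End K (E × G) := FreeAlgebra.lift K fun x =>
    LinearMap.prod
      (Algebra.lsmul K K E (FreeAlgebra.ι K x) ∘ₗ LinearMap.fst K E G +
        δ x ∘ₗ LinearMap.snd K E G)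
      (Algebra.lsmul K K G (FreeAlgebra.ι K x) ∘ₗ LinearMap.snd K E G)
  refine ⟨E × G, inferInstance, Module.compHom (E × G) ψ.toRingHom, AddEquiv.refl _, ?_, ?_⟩
  · intro x v
    show ψ (FreeAlgebra.ι K x) v = _
    simp only [ψ, FreeAlgebra.lift_ι_apply]
    rfl
  · intro c v
    show ψ (algebraMap K (FreeAlgebra K X) c) v = _
    rw [AlgHom.commutes]
    show c • v = _
    rw [algebraMap_smul, algebraMap_smul]
    rfl

/-- `K`-linear splittings commute with scalars. -/
theorem algebraMap_smul' (M : Type) [AddCommGroup M] [Module (FreeAlgebra K X) M] [Module K M]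
    [IsScalarTower K (FreeAlgebra K X) M] (c : K) (v : M) :
    algebraMap K (FreeAlgebra K X) c • v = c • v := algebraMap_smul _ _ _

/-- Over a free algebra, vanishing of `Ext^1(G, -)` passes to quotients. -/
theorem hered (E C G : Type) [AddCommGroup E] [Module (FreeAlgebra K X) E]
    [AddCommGroup C] [Module (FreeAlgebra K X) C] [AddCommGroup G] [Module (FreeAlgebra K X) G]
    (π : E →ₗ[FreeAlgebra K X] C) (hπ : Function.Surjective π)
    (h : ExtZero (FreeAlgebra K X) G E) : ExtZero (FreeAlgebra K X) G C := by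
  intro Y _ _ i p hi hp hex
  let _ : Module K E := Module.compHom E (algebraMap K (FreeAlgebra K X))
  let _ : Module K C := Module.compHom C (algebraMap K (FreeAlgebra K X))
  let _ : Module K G := Module.compHom G (algebraMap K (FreeAlgebra K X))
  let _ : Module K Y := Module.compHom Y (algebraMap K (FreeAlgebra K X))
  have : IsScalarTower K (FreeAlgebra K X) E := IsScalarTower.of_compHom _ _ _
  have : IsScalarTower K (FreeAlgebra K X) C := IsScalarTower.of_compHom _ _ _
  have : IsScalarTower K (FreeAlgebra K X) G := IsScalarTower.of_compHom _ _ _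
  have : IsScalarTower K (FreeAlgebra K X) Y := IsScalarTower.of_compHom _ _ _
  -- `K`-linear splittings
  obtain ⟨ρ, hρ⟩ := (i.restrictScalars K).exists_leftInverse_of_injective
    (LinearMap.ker_eq_bot.2 hi)
  obtain ⟨σ, hσ⟩ := (p.restrictScalars K).exists_rightInverse_of_surjective
    (LinearMap.range_eq_top.2 hp)
  obtain ⟨τ, hτ⟩ := (π.restrictScalars K).exists_rightInverse_of_surjective
    (LinearMap.range_eq_top.2 hπ)
  have hρ' : ∀ c, ρ (i c) = c := fun c => LinearMap.congr_fun hρ c
  have hσ' : ∀ g, p (σ g) = g := fun g => LinearMap.congr_fun hσ g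
  have hτ' : ∀ c, π (τ c) = c := fun c => LinearMap.congr_fun hτ c
  -- the cocycle
  let aY : FreeAlgebra K X → Y →ₗ[K] Y := fun r => Algebra.lsmul K K Y r
  let aG : FreeAlgebra K X → G →ₗ[K] G := fun r => Algebra.lsmul K K G r
  let aE : FreeAlgebra K X → E →ₗ[K] E := fun r => Algebra.lsmul K K E r
  let δ : X → G →ₗ[K] E := fun x =>
    τ ∘ₗ ρ ∘ₗ (aY (FreeAlgebra.ι K x) ∘ₗ σ - σ ∘ₗ aG (FreeAlgebra.ι K x))
  have hδ : ∀ x g, i (π (δ x g)) = FreeAlgebra.ι K x • σ g - σ (FreeAlgebra.ι K x • g) := by
    intro x g
    show i (π (τ (ρ (FreeAlgebra.ι K x • σ g - σ (FreeAlgebra.ι K x • g))))) = _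
    rw [hτ']
    have h0 : p (FreeAlgebra.ι K x • σ g - σ (FreeAlgebra.ι K x • g)) = 0 := by
      rw [map_sub, map_smul, hσ', hσ', sub_self]
    obtain ⟨c, hc⟩ := (hex _).1 h0
    rw [← hc, hρ']
  -- the twisted action on `E × G`
  obtain ⟨V, _, _, q, hsmul, hscal⟩ := twist E G δ
  -- the maps of the extension
  let i' : E →ₗ[FreeAlgebra K X] V :=
    { toFun := fun e => q.symm (e, 0)
      map_add' := fun a b => by
        rw [← map_add]; simp
      map_smul' := fun r => by
        intro e
        apply q.injective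
        rw [AddEquiv.apply_symm_apply]
        show ((r • e, 0) : E × G) = q (r • q.symm (e, 0))
        induction r generalizing e with
        | grade0 c => rw [hscal]; simp
        | grade1 x => rw [hsmul]; simp
        | mul a b ha hb =>
          have hb' : b • q.symm (e, (0 : G)) = q.symm (b • e, 0) := by
            apply q.injective; rw [← hb]; simp
          rw [mul_smul, mul_smul, ha, hb']
        | add a b ha hb =>
          rw [add_smul, add_smul, map_add, ← ha, ← hb]
          simp }
  let p' : V →ₗ[FreeAlgebra K X] G :=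
    { toFun := fun v => (q v).2
      map_add' := fun a b => by rw [map_add]; rfl
      map_smul' := fun r => by
        intro v
        show (q (r • v)).2 = r • (q v).2
        induction r generalizing v with
        | grade0 c => rw [hscal]
        | grade1 x => rw [hsmul]
        | mul a b ha hb => rw [mul_smul, mul_smul, ha, hb]
        | add a b ha hb =>
          rw [add_smul, add_smul, ← ha, ← hb, map_add]
          rfl }
  obtain ⟨r, hr⟩ := h V i' p'
    (fun a b hab => congrArg Prod.fst (q.symm.injective hab))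
    (fun g => ⟨q.symm (0, g), by show (q (q.symm (0, g))).2 = g; simp⟩) (by
      intro v
      constructor
      · intro hv
        have hv' : (q v).2 = 0 := hv
        refine ⟨(q v).1, ?_⟩
        show q.symm ((q v).1, 0) = v
        rw [← hv']
        simp
      · rintro ⟨e, rfl⟩
        show (q (q.symm (e, 0))).2 = 0
        simp)
  -- the retraction
  let s : G → E := fun g => r (q.symm (0, g))
  have hs_add : ∀ a b, s (a + b) = s a + s b := by
    intro a b
    show r (q.symm (0, a + b)) = r (q.symm (0, a)) + r (q.symm (0, b))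
    rw [← map_add, ← map_add]
    simp
  have hs_x : ∀ x g, FreeAlgebra.ι K x • s g = δ x g + s (FreeAlgebra.ι K x • g) := by
    intro x g
    show FreeAlgebra.ι K x • r (q.symm (0, g)) = δ x g + r (q.symm (0, FreeAlgebra.ι K x • g))
    have h1 : FreeAlgebra.ι K x • q.symm ((0 : E), g) =
        i' (δ x g) + q.symm (0, FreeAlgebra.ι K x • g) := by
      apply q.injective
      rw [hsmul, map_add]
      show _ = q (q.symm (δ x g, 0)) + _
      simp
    rw [← map_smul, h1, map_add, hr]
  have hs_c : ∀ (c : K) g, s (algebraMap K (FreeAlgebra K X) c • g) =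
      algebraMap K (FreeAlgebra K X) c • s g := by
    intro c g
    show r (q.symm (0, _)) = _ • r (q.symm (0, g))
    rw [← map_smul]
    congr 1
    apply q.injective
    rw [hscal]
    simp
  let t : Y → C := fun y => ρ (y - σ (p y)) + π (s (p y))
  have ht : ∀ (c : C) (g : G), t (i c + σ g) = c + π (s g) := by
    intro c g
    have h1 : p (i c + σ g) = g := by
      rw [map_add, (hex _).2 ⟨c, rfl⟩, hσ', zero_add]
    show ρ (i c + σ g - σ (p (i c + σ g))) + π (s (p (i c + σ g))) = _
    rw [h1, add_sub_cancel_right, hρ']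
  have hdec : ∀ y : Y, ∃ (c : C) (g : G), y = i c + σ g := by
    intro y
    have h0 : p (y - σ (p y)) = 0 := by rw [map_sub, hσ', sub_self]
    obtain ⟨c, hc⟩ := (hex _).1 h0
    exact ⟨c, p y, by rw [hc]; abel⟩
  have ht_add : ∀ y z, t (y + z) = t y + t z := by
    intro y z
    obtain ⟨c, g, rfl⟩ := hdec y
    obtain ⟨c', g', rfl⟩ := hdec z
    have : i c + σ g + (i c' + σ g') = i (c + c') + σ (g + g') := by
      rw [map_add, map_add]; abel
    rw [this, ht, ht, ht, hs_add, map_add]
    abel
  have ht_smul : ∀ (a : FreeAlgebra K X) (y : Y), t (a • y) = a • t y := by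
    intro a
    induction a with
    | grade0 c =>
      intro y
      obtain ⟨c', g, rfl⟩ := hdec y
      have : algebraMap K (FreeAlgebra K X) c • (i c' + σ g) =
          i (algebraMap K (FreeAlgebra K X) c • c') +
            σ (algebraMap K (FreeAlgebra K X) c • g) := by
        rw [smul_add, map_smul]
        congr 1
        exact (map_smul σ c g).symm
      rw [this, ht, ht, hs_c, smul_add, map_smul]
    | grade1 x =>
      intro y
      obtain ⟨c', g, rfl⟩ := hdec y
      have : FreeAlgebra.ι K x • (i c' + σ g) =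
          i (FreeAlgebra.ι K x • c' + π (δ x g)) + σ (FreeAlgebra.ι K x • g) := by
        rw [smul_add, map_add, map_smul, hδ]; abel
      rw [this, ht, ht, smul_add, ← map_smul π, hs_x, map_add]
      abel
    | mul a b ha hb => intro y; rw [mul_smul, mul_smul, ha, hb]
    | add a b ha hb => intro y; rw [add_smul, add_smul, ht_add, ha, hb]
  refine ⟨{ toFun := t, map_add' := ht_add, map_smul' := ht_smul }, ?_⟩
  intro c
  have := ht c 0
  rw [map_zero, add_zero] at this
  show t (i c) = c
  rw [this]
  have h0 : s 0 = 0 := by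
    have := hs_add 0 0
    rw [add_zero] at this
    exact left_eq_add.1 this
  rw [h0, map_zero, add_zero]

end free

/-! ### Flat modules and injective modules over a quotient ring -/

section quotient

variable {R A : Type} [Ring R] [Ring A]

/-- If `f : R → A` is surjective, `E` is an injective `A`-module and `G` is a flat `R`-module then
`Ext^1_R(G, E) = 0`. -/
theorem flat_injective (f : R →+* A) (hf : Function.Surjective f) (E : Type) [AddCommGroup E]
    [Module A E] [Module R E] (hE : ∀ (r : R) (e : E), r • e = f r • e)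
    (hinj : Module.Injective A E) (G : Type) [AddCommGroup G] [Module R G] (hG : IsFlat R G) :
    ExtZero R G E := by
  intro Y _ _ i p hi hp hex
  -- the submodule `I Y`
  let N : Submodule R Y := Submodule.span R {y | ∃ (r : R) (z : Y), f r = 0 ∧ y = r • z}
  have hN : ∀ y ∈ N, ∃ (n : ℕ) (r : Fin n → R) (z : Fin n → Y),
      (∀ j, f (r j) = 0) ∧ y = ∑ j, r j • z j := by
    intro y hy
    induction hy using Submodule.span_induction with
    | mem y hy =>
      obtain ⟨r, z, hr, rfl⟩ := hy
      exact ⟨1, fun _ => r, fun _ => z, fun _ => hr, by simp⟩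
    | zero => exact ⟨0, Fin.elim0, Fin.elim0, fun j => j.elim0, by simp⟩
    | add y z _ _ hy hz =>
      obtain ⟨n, r, u, hr, rfl⟩ := hy
      obtain ⟨m, s, v, hs, rfl⟩ := hz
      refine ⟨n + m, Fin.append r s, Fin.append u v, ?_, ?_⟩
      · intro j
        refine Fin.addCases (fun j => ?_) (fun j => ?_) j
        · simpa using hr j
        · simpa using hs j
      · rw [Fin.sum_univ_add]; simp
    | smul a y _ hy =>
      obtain ⟨n, r, u, hr, rfl⟩ := hy
      refine ⟨n, fun j => a * r j, u, fun j => by rw [map_mul, hr, mul_zero], ?_⟩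
      rw [Finset.smul_sum]
      simp [mul_smul]
  -- `E ∩ I Y = 0`
  have hdis : ∀ e : E, i e ∈ N → e = 0 := by
    intro e he
    obtain ⟨n, r, z, hr, hz⟩ := hN _ he
    have h1 : ∑ j, r j • p (z j) = 0 := by
      have := congrArg p hz
      rw [(hex _).2 ⟨e, rfl⟩, map_sum] at this
      simpa using this.symm
    obtain ⟨k, b, g, hg, hb⟩ := hG n r (fun j => p (z j)) h1
    choose w hw using fun l => hp (g l)
    have h2 : ∀ j, ∃ e' : E, i e' = z j - ∑ l, b j l • w l := by
      intro j
      apply (hex _).1
      rw [map_sub, map_sum]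
      simp [hw, hg j]
    choose e' he' using h2
    have h3 : i e = 0 := by
      rw [hz]
      have h4 : ∀ j, z j = i (e' j) + ∑ l, b j l • w l := by
        intro j; rw [he']; abel
      have h5 : ∀ j, r j • z j = ∑ l, (r j * b j l) • w l := by
        intro j
        rw [h4 j, smul_add, ← map_smul, hE, hr, zero_smul, map_zero, zero_add, Finset.smul_sum]
        simp [mul_smul]
      rw [Finset.sum_congr rfl (fun j _ => h5 j), Finset.sum_comm]
      apply Finset.sum_eq_zero
      intro l _
      rw [← Finset.sum_smul, hb, zero_smul]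
    exact hi (by rw [h3, map_zero])
  -- the `A`-module `Y / I Y`
  have hker : ∀ (r : R) (w : Y ⧸ N), f r = 0 → r • w = 0 := by
    intro r w hr
    obtain ⟨y, rfl⟩ := N.mkQ_surjective w
    rw [← map_smul]
    exact (Submodule.Quotient.mk_eq_zero N).2 (Submodule.subset_span ⟨r, y, hr, rfl⟩)
  let _ : SMul A (Y ⧸ N) := ⟨fun a w => Function.surjInv hf a • w⟩
  have hcomp : ∀ (r : R) (w : Y ⧸ N), f r • w = r • w := by
    intro r w
    show Function.surjInv hf (f r) • w = r • w
    rw [← sub_eq_zero, ← sub_smul]
    apply hker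
    rw [map_sub, Function.surjInv_eq hf, sub_self]
  let _ : Module A (Y ⧸ N) := Function.Surjective.moduleLeft f hf hcomp
  let j : E →ₗ[A] Y ⧸ N :=
    { toFun := fun e => N.mkQ (i e)
      map_add' := fun a b => by rw [map_add, map_add]
      map_smul' := fun a e => by
        obtain ⟨r, rfl⟩ := hf a
        rw [← hE, map_smul, map_smul]
        exact (hcomp r _).symm }
  have hj : Function.Injective j := by
    rw [injective_iff_map_eq_zero]
    intro e he
    exact hdis e ((Submodule.Quotient.mk_eq_zero N).1 he)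
  obtain ⟨ρ, hρ⟩ := hinj.out j hj LinearMap.id
  refine ⟨{ toFun := fun y => ρ (N.mkQ y)
            map_add' := fun a b => by rw [map_add, map_add]
            map_smul' := fun r y => by
              rw [map_smul, ← hcomp r (N.mkQ y), map_smul]
              exact (hE r _).symm }, ?_⟩
  intro e
  exact hρ e

end quotient

/-! ### The ring of functions and the ideal of functions with countable support -/

section functions

variable {K Ω : Type} [Field K]

/-- The ideal of functions with countable support. -/
def cs (K Ω : Type) [Field K] : Ideal (Ω → K) where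
  carrier := {x | (Function.support x).Countable}
  zero_mem' := by simp
  add_mem' := fun {a b} ha hb => (ha.union hb).mono (Function.support_add a b)
  smul_mem' := fun c x hx => hx.mono (by
    intro w hw h
    apply hw
    have hx0 : x w = 0 := by simpa using h
    simp [hx0])

theorem mem_cs {x : Ω → K} : x ∈ cs K Ω ↔ (Function.support x).Countable := Iff.rfl

open Classical in
/-- indicator function of a set -/
def ind (K : Type) {Ω : Type} [Field K] (s : Set Ω) : Ω → K := fun w => if w ∈ s then 1 else 0

theorem ind_mem {s : Set Ω} (hs : s.Countable) : ind K s ∈ cs K Ω := by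
  apply hs.mono
  intro w hw
  by_contra h
  exact hw (by simp [ind, h])

theorem ind_mul {s : Set Ω} {x : Ω → K} (h : Function.support x ⊆ s) : x * ind K s = x := by
  ext w
  by_cases hw : w ∈ s
  · simp [ind, hw]
  · have : x w = 0 := by
      by_contra h0
      exact hw (h h0)
    simp [this]

/-- `A / m` is flat. -/
theorem flat_quotient : IsFlat (Ω → K) ((Ω → K) ⧸ cs K Ω) := by
  intro n a x hx
  choose c hc using fun i => Ideal.Quotient.mk_surjective (x i)
  have h1 : ∑ i, a i * c i ∈ cs K Ω := by
    rw [← Ideal.Quotient.eq_zero_iff_mem, map_sum]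
    rw [← hx]
    apply Finset.sum_congr rfl
    intro i _
    rw [map_mul, hc]
    rfl
  let u : Ω → K := 1 - ind K (Function.support (∑ i, a i * c i))
  refine ⟨1, fun i _ => u * c i, fun _ => Ideal.Quotient.mk _ 1, ?_, ?_⟩
  · intro i
    rw [Finset.sum_const]
    simp only [Finset.card_univ, Fintype.card_fin, one_smul]
    rw [← hc i]
    have : (u * c i) • (Ideal.Quotient.mk (cs K Ω) 1) = Ideal.Quotient.mk (cs K Ω) (u * c i) := by
      show Ideal.Quotient.mk (cs K Ω) ((u * c i) * 1) = _
      rw [mul_one]
    rw [this]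
    apply Ideal.Quotient.eq.2
    have h2 : c i - u * c i = c i * ind K (Function.support (∑ i, a i * c i)) := by
      simp only [u]; ring
    rw [h2]
    exact Ideal.mul_mem_left _ _ (ind_mem h1)
  · intro _
    have h2 : ∑ i, a i * (u * c i) = u * ∑ i, a i * c i := by
      rw [Finset.mul_sum]
      apply Finset.sum_congr rfl
      intro i _
      ring
    rw [h2, sub_mul, one_mul, mul_comm, ind_mul subset_rfl, sub_self]

/-- The canonical projection from a free module to the ideal. -/
def q (K Ω : Type) [Field K] : (cs K Ω →₀ (Ω → K)) →ₗ[Ω → K] cs K Ω :=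
  Finsupp.linearCombination (Ω → K) id

theorem q_surjective : Function.Surjective (q K Ω) := by
  intro x
  exact ⟨Finsupp.single x 1, by simp [q]⟩

/-- The ideal of functions with countable support on an uncountable set is not projective. -/
theorem no_section (hΩ : ¬ (Set.univ : Set Ω).Countable)
    (s : cs K Ω →ₗ[Ω → K] (cs K Ω →₀ (Ω → K))) (hs : ∀ x, q K Ω (s x) = x) : False := by
  classical
  -- supports grow
  have hmono : ∀ (t : Set Ω) (ht : t.Countable) (x : cs K Ω), Function.support x.1 ⊆ t →
      (s x).support ⊆ (s ⟨ind K t, ind_mem ht⟩).support := by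
    intro t ht x hx
    have h1 : x = x.1 • (⟨ind K t, ind_mem ht⟩ : cs K Ω) := by
      apply Subtype.ext
      exact (ind_mul hx).symm
    conv_lhs => rw [h1, map_smul]
    exact Finsupp.support_smul
  -- supports are bounded
  have hbdd : ∃ n : ℕ, ∀ x, (s x).support.card ≤ n := by
    by_contra hcon
    push Not at hcon
    choose x hx using hcon
    have ht : (⋃ n, Function.support (x n).1).Countable :=
      Set.countable_iUnion fun n => (x n).2
    have h1 := fun n => Finset.card_le_card
      (hmono _ ht (x n) (Set.subset_iUnion (fun n => Function.support (x n).1) n))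
    have h2 := h1 ((s ⟨ind K _, ind_mem ht⟩).support.card)
    have h3 := hx ((s ⟨ind K _, ind_mem ht⟩).support.card)
    omega
  obtain ⟨n, hn⟩ := hbdd
  obtain ⟨x₀, hx₀⟩ : ∃ x₀, ∀ x, (s x).support.card ≤ (s x₀).support.card := by
    by_contra hcon
    push Not at hcon
    have : ∀ k, ∃ x, k ≤ (s x).support.card := by
      intro k
      induction k with
      | zero => exact ⟨0, Nat.zero_le _⟩
      | succ k ih =>
        obtain ⟨x, hx⟩ := ih
        obtain ⟨y, hy⟩ := hcon x
        exact ⟨y, by omega⟩
    obtain ⟨x, hx⟩ := this (n + 1)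
    have := hn x
    omega
  have hsub : ∀ x, (s x).support ⊆ (s x₀).support := by
    intro x
    have ht : (Function.support x₀.1 ∪ Function.support x.1).Countable := x₀.2.union x.2
    have h1 := hmono _ ht x₀ Set.subset_union_left
    have h2 := hmono _ ht x Set.subset_union_right
    rw [Finset.eq_of_subset_of_card_le h1 (hx₀ _)]
    exact h2
  -- all supports are contained in a countable set
  have ht : (⋃ y ∈ (s x₀).support, Function.support y.1).Countable :=
    Set.Countable.biUnion (Finset.countable_toSet _) fun y _ => y.2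
  obtain ⟨w, hw⟩ : ∃ w, w ∉ (⋃ y ∈ (s x₀).support, Function.support y.1) := by
    by_contra hcon
    push Not at hcon
    exact hΩ (ht.mono fun w _ => hcon w)
  have hx : ind K {w} ∈ cs K Ω := ind_mem (Set.countable_singleton w)
  have h1 := congrArg (fun z => z.1 w) (hs ⟨ind K {w}, hx⟩)
  simp only [q, Finsupp.linearCombination_apply, Finsupp.sum, id] at h1
  rw [Submodule.coe_sum, Finset.sum_apply, Finset.sum_eq_zero] at h1
  · simp [ind] at h1
  · intro y hy
    have h2 : y.1 w = 0 := by
      by_contra h0
      exact hw (Set.mem_biUnion (hsub _ hy) h0)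
    simp [h2]

end functions

/-! ### Vanishing of `Ext^1(A / m, C)` and homomorphisms from `m` -/

section pushout

variable {A : Type} [CommRing A]

/-- If `Ext^1(A / I, C) = 0` then every homomorphism `I → C` is multiplication by an element. -/
theorem hom_of_ext (I : Ideal A) (C : Type) [AddCommGroup C] [Module A C]
    (h : ExtZero A (A ⧸ I) C) (φ : I →ₗ[A] C) : ∃ c : C, ∀ x : I, φ x = (x : A) • c := by
  let N : Submodule A (C × A) := LinearMap.range (LinearMap.prod φ (-I.subtype))
  have hN : ∀ c a, (c, a) ∈ N ↔ ∃ x : I, φ x = c ∧ -(x : A) = a := by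
    intro c a
    constructor
    · rintro ⟨x, hx⟩
      exact ⟨x, congrArg Prod.fst hx, congrArg Prod.snd hx⟩
    · rintro ⟨x, rfl, rfl⟩
      exact ⟨x, rfl⟩
  let i : C →ₗ[A] (C × A) ⧸ N := N.mkQ ∘ₗ LinearMap.inl A C A
  let p : ((C × A) ⧸ N) →ₗ[A] A ⧸ I := N.liftQ (I.mkQ ∘ₗ LinearMap.snd A C A) (by
    rintro ⟨c, a⟩ hca
    obtain ⟨x, -, rfl⟩ := (hN c a).1 hca
    rw [LinearMap.mem_ker]
    show I.mkQ (-(x : A)) = 0
    rw [Submodule.mkQ_apply, Submodule.Quotient.mk_eq_zero]
    exact I.neg_mem x.2)
  obtain ⟨r, hr⟩ := h _ i p (by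
      rw [injective_iff_map_eq_zero]
      intro c hc
      have h1 : (c, (0 : A)) ∈ N := (Submodule.Quotient.mk_eq_zero N).1 hc
      obtain ⟨x, hx, hx0⟩ := (hN _ _).1 h1
      have h2 : x = 0 := Subtype.ext (by simpa using hx0)
      rw [← hx, h2, map_zero])
    (by
      intro a
      obtain ⟨a, rfl⟩ := I.mkQ_surjective a
      exact ⟨N.mkQ (0, a), by simp [p]⟩)
    (by
      intro z
      obtain ⟨⟨c, a⟩, rfl⟩ := N.mkQ_surjective z
      constructor
      · intro hz
        have h1 : a ∈ I := by
          have : I.mkQ a = 0 := by simpa [p] using hz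
          exact (Submodule.Quotient.mk_eq_zero I).1 this
        refine ⟨c + φ ⟨a, h1⟩, ?_⟩
        show N.mkQ (c + φ ⟨a, h1⟩, 0) = N.mkQ (c, a)
        rw [← sub_eq_zero, ← map_sub, Submodule.mkQ_apply, Submodule.Quotient.mk_eq_zero]
        refine (hN _ _).2 ⟨⟨a, h1⟩, ?_, ?_⟩
        · simp
        · simp
      · rintro ⟨c', hc'⟩
        rw [← hc']
        simp [i, p])
  refine ⟨r (N.mkQ (0, 1)), ?_⟩
  intro x
  rw [← map_smul, ← hr (φ x)]
  congr 1
  show N.mkQ (φ x, 0) = (x : A) • N.mkQ (0, 1)
  rw [← map_smul, ← sub_eq_zero, ← map_sub, Submodule.mkQ_apply, Submodule.Quotient.mk_eq_zero]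
  refine (hN _ _).2 ⟨x, ?_, ?_⟩
  · simp
  · simp

/-- If `Ext^1(A / I, E / K)` vanishes for the embedding of a kernel `K` in an injective module
`E`, then the surjection onto `I` with kernel `K` splits. -/
theorem section_of_ext (I : Ideal A) (Φ : Type) [AddCommGroup Φ] [Module A Φ] (q : Φ →ₗ[A] I)
    (hq : Function.Surjective q) (E : Type) [AddCommGroup E] [Module A E]
    (hE : Module.Injective A E) (ι : LinearMap.ker q →ₗ[A] E) (hι : Function.Injective ι)
    (h : ExtZero A (A ⧸ I) (E ⧸ LinearMap.range ι)) : ∃ s : I →ₗ[A] Φ, ∀ x, q (s x) = x := by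
  obtain ⟨ιh, hιh⟩ := hE.out (LinearMap.ker q).subtype Subtype.val_injective ι
  let N : Submodule A E := LinearMap.range ι
  -- the induced homomorphism on `I`
  have hker : LinearMap.ker q ≤ LinearMap.ker (N.mkQ ∘ₗ ιh) := by
    intro φ hφ
    rw [LinearMap.mem_ker]
    show N.mkQ (ιh φ) = 0
    rw [Submodule.mkQ_apply, Submodule.Quotient.mk_eq_zero]
    exact ⟨⟨φ, hφ⟩, (hιh ⟨φ, hφ⟩).symm⟩
  let g : I →ₗ[A] E ⧸ N := (LinearMap.ker q).liftQ (N.mkQ ∘ₗ ιh) hker ∘ₗ
    (q.quotKerEquivOfSurjective hq).symm.toLinearMap
  have hg : ∀ φ, g (q φ) = N.mkQ (ιh φ) := by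
    intro φ
    have h1 : (q.quotKerEquivOfSurjective hq).symm (q φ) = (LinearMap.ker q).mkQ φ := by
      rw [LinearEquiv.symm_apply_eq]
      rfl
    show (LinearMap.ker q).liftQ (N.mkQ ∘ₗ ιh) hker
      ((q.quotKerEquivOfSurjective hq).symm (q φ)) = _
    rw [h1]
    simp
  obtain ⟨c, hc⟩ := hom_of_ext I _ h g
  obtain ⟨e, rfl⟩ := N.mkQ_surjective c
  have h2 : ∀ φ, ∃ k : LinearMap.ker q, ι k = ιh φ - ((q φ : I) : A) • e := by
    intro φ
    have h3 : ιh φ - ((q φ : I) : A) • e ∈ N := by
      rw [← Submodule.Quotient.mk_eq_zero N, ← Submodule.mkQ_apply, map_sub, map_smul, ← hc, hg,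
        sub_self]
    exact h3
  choose ψ hψ using h2
  have hψ_add : ∀ a b, ψ (a + b) = ψ a + ψ b := by
    intro a b
    apply hι
    rw [map_add, hψ, hψ, hψ, map_add, map_add, Submodule.coe_add, add_smul]
    abel
  have hψ_smul : ∀ (r : A) a, ψ (r • a) = r • ψ a := by
    intro r a
    apply hι
    rw [map_smul, hψ, hψ, map_smul, map_smul, Submodule.coe_smul, smul_eq_mul, mul_smul, smul_sub]
  have hψ_ker : ∀ k : LinearMap.ker q, ψ k = k := by
    intro k
    apply hι
    have hk : q (k : Φ) = 0 := k.2
    rw [hψ, hk, Submodule.coe_zero, zero_smul, sub_zero]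
    exact hιh k
  let θ : Φ →ₗ[A] Φ :=
    { toFun := fun φ => φ - ψ φ
      map_add' := fun a b => by rw [hψ_add, Submodule.coe_add]; abel
      map_smul' := fun r a => by
        rw [hψ_smul, Submodule.coe_smul, RingHom.id_apply, smul_sub] }
  have hθ : LinearMap.ker q ≤ LinearMap.ker θ := by
    intro φ hφ
    rw [LinearMap.mem_ker]
    show φ - (ψ φ : Φ) = 0
    rw [hψ_ker ⟨φ, hφ⟩, sub_self]
  refine ⟨(LinearMap.ker q).liftQ θ hθ ∘ₗ (q.quotKerEquivOfSurjective hq).symm.toLinearMap, ?_⟩
  intro x
  obtain ⟨φ, rfl⟩ := hq x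
  have h1 : (q.quotKerEquivOfSurjective hq).symm (q φ) = (LinearMap.ker q).mkQ φ := by
    rw [LinearEquiv.symm_apply_eq]
    rfl
  show q ((LinearMap.ker q).liftQ θ hθ ((q.quotKerEquivOfSurjective hq).symm (q φ))) = _
  rw [h1]
  have h3 : (LinearMap.ker q).liftQ θ hθ ((LinearMap.ker q).mkQ φ) = φ - ψ φ := by simp [θ]
  rw [h3, map_sub]
  have h4 : q (ψ φ : Φ) = 0 := (ψ φ).2
  rw [h4, sub_zero]

end pushout

/-- The ring of all functions from the reals to the rationals. -/
abbrev Fun : Type := ℝ → ℚ

/-- The canonical surjection from the free rational algebra on the set of all functions. -/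
def can : FreeAlgebra ℚ Fun →+* Fun := (FreeAlgebra.lift ℚ (id : Fun → Fun)).toRingHom

theorem can_surjective : Function.Surjective can := by
  intro a
  exact ⟨FreeAlgebra.ι ℚ a, FreeAlgebra.lift_ι_apply _ _⟩

theorem not_perfect : ¬ RelativelyLeftPerfect can := by
  intro H
  have hΩ : ¬ (Set.univ : Set ℝ).Countable := Cardinal.not_countable_real
  -- embed the kernel in an injective module
  obtain ⟨E, _, _, hE, ι, hι⟩ : ∃ (E : Type) (_ : AddCommGroup E) (_ : Module Fun E)
      (_ : Module.Injective Fun E) (ι : LinearMap.ker (q ℚ ℝ) →ₗ[Fun] E),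
      Function.Injective ι := by
    let M : ModuleCat.{0} Fun := ModuleCat.of Fun (LinearMap.ker (q ℚ ℝ))
    let E : ModuleCat.{0} Fun := CategoryTheory.Injective.under M
    have hE : CategoryTheory.Injective E := inferInstanceAs
      (CategoryTheory.Injective (CategoryTheory.Injective.under M))
    refine ⟨E, inferInstance, inferInstance, ?_, (CategoryTheory.Injective.ι M).hom, ?_⟩
    · exact Module.injective_module_of_injective_object Fun _
    · exact (ModuleCat.mono_iff_injective _).1 inferInstance
  have hC := H (E ⧸ LinearMap.range ι) (by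
    let _ : Module (FreeAlgebra ℚ Fun) E := Module.compHom E can
    let _ : Module (FreeAlgebra ℚ Fun) (E ⧸ LinearMap.range ι) :=
      Module.compHom (E ⧸ LinearMap.range ι) can
    show Cotorsion (FreeAlgebra ℚ Fun) (E ⧸ LinearMap.range ι)
    intro G _ _ hG
    have h1 : ExtZero (FreeAlgebra ℚ Fun) G E :=
      flat_injective can can_surjective E (fun _ _ => rfl) hE G hG
    let π : E →ₗ[FreeAlgebra ℚ Fun] (E ⧸ LinearMap.range ι) :=
      { toFun := fun e => (LinearMap.range ι).mkQ e
        map_add' := fun a b => map_add _ a b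
        map_smul' := fun r a => map_smul (LinearMap.range ι).mkQ (can r) a }
    exact hered E _ G π (LinearMap.range ι).mkQ_surjective h1)
  have h2 := hC (Fun ⧸ cs ℚ ℝ) flat_quotient
  obtain ⟨s, hs⟩ := section_of_ext (cs ℚ ℝ) _ (q ℚ ℝ) q_surjective E hE ι hι h2
  exact no_section hΩ s hs

/-- There is a ring homomorphism `f : R → A` such that `A` is a finitely generated right
`R`-module (even `f` is surjective) and `f` is not relatively left perfect. -/
theorem result : ∃ (R A : Type) (_ : Ring R) (_ : Ring A) (f : R →+* A),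
    Function.Surjective f ∧ FinitelyGeneratedRight f ∧ ¬ RelativelyLeftPerfect f := by
  refine ⟨FreeAlgebra ℚ Fun, Fun, inferInstance, inferInstance, can, can_surjective, ?_,
    not_perfect⟩
  refine ⟨{1}, fun a => ⟨fun _ => FreeAlgebra.ι ℚ a, ?_⟩⟩
  rw [Finset.sum_singleton, one_mul]
  exact (FreeAlgebra.lift_ι_apply (id : Fun → Fun) a).symm

end

end Pool.Agent.Results.MP_874a88_al.NotRelativelyPerfect
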